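import Pool.Agent.PDX.Stmts

/-!
# PDX row CMB
-/

set_option autoImplicit false

namespace Pool.Agent.PDX.H31

open Finset

/-- Counting the pairs with equal labels. -/
theorem pairs {X V : Type} [Fintype X] [DecidableEq X] [DecidableEq V] (N R : ℕ)
    (hX : Fintype.card X ≤ N) (P Q : X → V) (E : Finset (X × X))
    (hE : ∀ p ∈ E, P p.1 = Q p.2)
    (hR : ∀ p ∈ E, (univ.filter (fun x => P x = P p.1)).card ≤ R ∨
      (univ.filter (fun y => Q y = P p.1)).card ≤ R) :
    E.card ≤ 2 * (N * R) := by
  classical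
  set E1 := E.filter (fun p => (univ.filter (fun x => P x = P p.1)).card ≤ R) with hE1
  set E2 := E.filter (fun p => (univ.filter (fun y => Q y = P p.1)).card ≤ R) with hE2
  have hsub : E ⊆ E1 ∪ E2 := by
    intro p hp
    rcases hR p hp with h | h
    · exact mem_union_left _ (mem_filter.mpr ⟨hp, h⟩)
    · exact mem_union_right _ (mem_filter.mpr ⟨hp, h⟩)
  have h1 : E1.card ≤ N * R := by
    have e1 : E1.card = ∑ y : X, (E1.filter (fun p => p.2 = y)).card :=
      card_eq_sum_card_fiberwise (fun _ _ => mem_univ _)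
    rw [e1]
    have e2 : ∀ y : X, (E1.filter (fun p => p.2 = y)).card ≤ R := by
      intro y
      rcases (E1.filter (fun p => p.2 = y)).eq_empty_or_nonempty with h0 | ⟨p0, hp0⟩
      · rw [h0, card_empty]
        exact Nat.zero_le _
      · obtain ⟨hp1, hp2⟩ := mem_filter.mp hp0
        obtain ⟨hp3, hp4⟩ := mem_filter.mp hp1
        refine le_trans ?_ hp4
        have e3 : (E1.filter (fun p => p.2 = y)).card =
            ((E1.filter (fun p => p.2 = y)).image Prod.fst).card := by
          rw [card_image_of_injOn]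
          intro p hp q hq hpq
          have hp' := (mem_filter.mp (mem_coe.mp hp)).2
          have hq' := (mem_filter.mp (mem_coe.mp hq)).2
          exact Prod.ext hpq (hp'.trans hq'.symm)
        rw [e3]
        refine card_le_card (fun x hx => ?_)
        obtain ⟨p, hp, rfl⟩ := mem_image.mp hx
        obtain ⟨h1, h2⟩ := mem_filter.mp hp
        refine mem_filter.mpr ⟨mem_univ _, ?_⟩
        rw [hE p (mem_filter.mp h1).1, hE p0 hp3, h2, hp2]
    calc ∑ y : X, (E1.filter (fun p => p.2 = y)).card ≤ ∑ _y : X, R :=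
          sum_le_sum (fun y _ => e2 y)
      _ = Fintype.card X * R := by rw [sum_const, smul_eq_mul, card_univ]
      _ ≤ N * R := Nat.mul_le_mul_right _ hX
  have h2 : E2.card ≤ N * R := by
    have e1 : E2.card = ∑ x : X, (E2.filter (fun p => p.1 = x)).card :=
      card_eq_sum_card_fiberwise (fun _ _ => mem_univ _)
    rw [e1]
    have e2 : ∀ x : X, (E2.filter (fun p => p.1 = x)).card ≤ R := by
      intro x
      rcases (E2.filter (fun p => p.1 = x)).eq_empty_or_nonempty with h0 | ⟨p0, hp0⟩
      · rw [h0, card_empty]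
        exact Nat.zero_le _
      · obtain ⟨hp1, hp2⟩ := mem_filter.mp hp0
        obtain ⟨hp3, hp4⟩ := mem_filter.mp hp1
        refine le_trans ?_ hp4
        have e3 : (E2.filter (fun p => p.1 = x)).card =
            ((E2.filter (fun p => p.1 = x)).image Prod.snd).card := by
          rw [card_image_of_injOn]
          intro p hp q hq hpq
          have hp' := (mem_filter.mp (mem_coe.mp hp)).2
          have hq' := (mem_filter.mp (mem_coe.mp hq)).2
          exact Prod.ext (hp'.trans hq'.symm) hpq
        rw [e3]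
        refine card_le_card (fun y hy => ?_)
        obtain ⟨p, hp, rfl⟩ := mem_image.mp hy
        obtain ⟨h1, h2⟩ := mem_filter.mp hp
        refine mem_filter.mpr ⟨mem_univ _, ?_⟩
        rw [← hE p (mem_filter.mp h1).1, h2, hp2]
    calc ∑ x : X, (E2.filter (fun p => p.1 = x)).card ≤ ∑ _x : X, R :=
          sum_le_sum (fun x _ => e2 x)
      _ = Fintype.card X * R := by rw [sum_const, smul_eq_mul, card_univ]
      _ ≤ N * R := Nat.mul_le_mul_right _ hX
  have h3 := (card_le_card hsub).trans (card_union_le _ _)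
  omega

/-- Row CMB. -/
theorem cmb (hdj : Dj3Stmt) (hrec : RecStmt) (hdec : DecStmt) : CmbStmt := by
  classical
  intro m K s a b G hG
  have hXc : Fintype.card (Finset (Fin (2 * m))) = 4 ^ m := by
    rw [Fintype.card_finset, Fintype.card_fin, pow_mul]
    norm_num
  -- the bad pairs of `k`
  let D : Fin K → Finset (Finset (Fin (2 * m)) × Finset (Fin (2 * m))) := fun k =>
    univ.filter (fun p => ¬ G k {l | 0 ≤ a k l p.1 + b k l p.2})
  have hDdis : ∀ k, ∀ p ∈ D k, ∀ i, i ∈ p.1 → i ∉ p.2 := by
    intro k p hp i hi1 hi2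
    exact (mem_filter.mp hp).2 ((hG p.1 p.2).mp ⟨i, hi1, hi2⟩ k)
  have hcover : (univ.filter (fun p : Finset (Fin (2 * m)) × Finset (Fin (2 * m)) => ∀ i, i ∈ p.1 → i ∉ p.2)) ⊆ univ.biUnion D := by
    intro p hp
    have hp' := (mem_filter.mp hp).2
    have h1 : ¬ ∀ k, G k {l | 0 ≤ a k l p.1 + b k l p.2} := by
      intro h
      obtain ⟨i, hi1, hi2⟩ := (hG p.1 p.2).mpr h
      exact hp' i hi1 hi2
    push Not at h1
    obtain ⟨k, hk⟩ := h1
    exact mem_biUnion.mpr ⟨k, mem_univ _, mem_filter.mpr ⟨mem_univ _, hk⟩⟩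
  have hD : ∀ k, (D k).card ≤ 2 * 8 ^ m * (4 * m + 3) ^ s := by
    intro k
    have hd := fun l : Fin s => hdec (2 * m) (Finset (Fin (2 * m))) (Finset (Fin (2 * m))) (by rw [hXc, pow_mul]; norm_num) (a k l) (b k l)
    choose p q hpq hlab using hd
    -- the classes of index vectors
    let E : (Fin s → Fin (2 * (2 * m) + 3)) → Finset (Finset (Fin (2 * m)) × Finset (Fin (2 * m))) := fun i =>
      (D k).filter (fun z => ∀ l, p l (i l) z.1 = q l (i l) z.2)
    have hDE : D k ⊆ univ.biUnion E := by
      intro z hz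
      have h1 : ∀ l, ∃ i, p l i z.1 = q l i z.2 := fun l => hpq l z.1 z.2
      choose i hi using h1
      exact mem_biUnion.mpr ⟨i, mem_univ _, mem_filter.mpr ⟨hz, hi⟩⟩
    have hE : ∀ i, (E i).card ≤ 2 * (4 ^ m * 2 ^ m) := by
      intro i
      refine pairs (4 ^ m) (2 ^ m) hXc.le (fun x => fun l => p l (i l) x)
        (fun y => fun l => q l (i l) y) (E i) ?_ ?_
      · intro z hz
        funext l
        exact (mem_filter.mp hz).2 l
      · intro z hz
        obtain ⟨hzD, hzl⟩ := mem_filter.mp hz
        set A : Finset (Finset (Fin (2 * m))) := univ.filter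
          (fun x => (fun l => p l (i l) x) = (fun l => p l (i l) z.1)) with hA
        set B : Finset (Finset (Fin (2 * m))) := univ.filter
          (fun y => (fun l => q l (i l) y) = (fun l => p l (i l) z.1)) with hB
        have hdis : ∀ x ∈ A, ∀ y ∈ B, ∀ j, j ∈ x → j ∉ y := by
          intro x hx y hy
          have hx' := (mem_filter.mp hx).2
          have hy' := (mem_filter.mp hy).2
          have hset : {l | 0 ≤ a k l x + b k l y} = {l | 0 ≤ a k l z.1 + b k l z.2} := by
            ext l
            have h1 : p l (i l) x = p l (i l) z.1 := congrFun hx' l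
            have h2 : q l (i l) y = p l (i l) z.1 := congrFun hy' l
            exact hlab l (i l) x y z.1 z.2 (h1.trans h2.symm) (hzl l) h1
          refine hDdis k (x, y) (mem_filter.mpr ⟨mem_univ _, ?_⟩)
          have h3 := (mem_filter.mp hzD).2
          dsimp only
          rw [hset]
          exact h3
        have hAB := hrec (2 * m) A B hdis
        by_contra hcon
        push Not at hcon
        have h4 : 2 ^ m * 2 ^ m < A.card * B.card :=
          Nat.mul_lt_mul'' hcon.1 hcon.2
        have h5 : (2 : ℕ) ^ (2 * m) = 2 ^ m * 2 ^ m := by rw [two_mul, pow_add]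
        exact absurd h4 (not_lt.mpr (hAB.trans_eq h5))
    have h1 := (card_le_card hDE).trans card_biUnion_le
    have h2 : ∑ i, (E i).card ≤ ∑ _i : (Fin s → Fin (2 * (2 * m) + 3)), 2 * (4 ^ m * 2 ^ m) :=
      sum_le_sum (fun i _ => hE i)
    rw [sum_const, smul_eq_mul, card_univ, Fintype.card_fun, Fintype.card_fin,
      Fintype.card_fin] at h2
    have h3 : (4 : ℕ) ^ m * 2 ^ m = 8 ^ m := by
      rw [← mul_pow]
      norm_num
    rw [h3] at h2
    calc (D k).card ≤ (2 * (2 * m) + 3) ^ s * (2 * 8 ^ m) := h1.trans h2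
      _ = 2 * 8 ^ m * (4 * m + 3) ^ s := by
        rw [show 2 * (2 * m) + 3 = 4 * m + 3 by omega]
        ring
  have h1 := (card_le_card hcover).trans card_biUnion_le
  have h2 : ∑ k, (D k).card ≤ ∑ _k : Fin K, 2 * 8 ^ m * (4 * m + 3) ^ s :=
    sum_le_sum (fun k _ => hD k)
  rw [sum_const, smul_eq_mul, card_univ, Fintype.card_fin] at h2
  have h3 := hdj (2 * m)
  have h4 : (3 : ℕ) ^ (2 * m) = 9 ^ m := by
    rw [pow_mul]
    norm_num
  rw [h4] at h3
  rw [← h3]
  calc _ ≤ K * (2 * 8 ^ m * (4 * m + 3) ^ s) := h1.trans h2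
    _ = 2 * 8 ^ m * (4 * m + 3) ^ s * K := by ring

end Pool.Agent.PDX.H31
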