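import Pool.Agent.PDX.Stmts

/-!
# PDX rows REC and DJ3
-/

set_option autoImplicit false

namespace Pool.Agent.PDX.H31

open Finset

/-- Row REC. -/
theorem rec' : RecStmt := by
  classical
  intro M A B h
  set U : Finset (Fin M) := A.biUnion id with hU
  have hA : A ⊆ U.powerset := by
    intro a ha
    rw [mem_powerset]
    intro i hi
    exact mem_biUnion.mpr ⟨a, ha, hi⟩
  have hB : B ⊆ Uᶜ.powerset := by
    intro b hb
    rw [mem_powerset]
    intro i hi
    rw [mem_compl]
    intro hiU
    obtain ⟨a, ha, hia⟩ := mem_biUnion.mp hiU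
    exact h a ha b hb i hia hi
  have h1 := card_le_card hA
  have h2 := card_le_card hB
  rw [card_powerset] at h1 h2
  have h3 : U.card + Uᶜ.card = M := by
    have := card_add_card_compl U
    rwa [Fintype.card_fin] at this
  calc A.card * B.card ≤ 2 ^ U.card * 2 ^ Uᶜ.card := Nat.mul_le_mul h1 h2
    _ = 2 ^ M := by rw [← pow_add, h3]

/-- Row DJ3. -/
theorem dj3 : Dj3Stmt := by
  classical
  intro M
  have e1 : (univ.filter (fun p : Finset (Fin M) × Finset (Fin M) => ∀ i, i ∈ p.1 → i ∉ p.2)).card =
      ∑ x : Finset (Fin M), ((univ.filter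
        (fun p : Finset (Fin M) × Finset (Fin M) => ∀ i, i ∈ p.1 → i ∉ p.2)).filter
          (fun p => p.1 = x)).card :=
    card_eq_sum_card_fiberwise (fun _ _ => mem_univ _)
  have e2 : ∀ x : Finset (Fin M), ((univ.filter
      (fun p : Finset (Fin M) × Finset (Fin M) => ∀ i, i ∈ p.1 → i ∉ p.2)).filter
        (fun p => p.1 = x)).card = 1 ^ x.card * 2 ^ ((univ : Finset (Fin M)).card - x.card) := by
    intro x
    have e3 : ((univ.filter
        (fun p : Finset (Fin M) × Finset (Fin M) => ∀ i, i ∈ p.1 → i ∉ p.2)).filter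
          (fun p => p.1 = x)) = (xᶜ.powerset).image (fun y => (x, y)) := by
      ext p
      simp only [mem_filter, mem_univ, true_and, mem_image, mem_powerset]
      constructor
      · rintro ⟨h1, rfl⟩
        refine ⟨p.2, ?_, rfl⟩
        intro i hi
        rw [mem_compl]
        intro hi1
        exact h1 i hi1 hi
      · rintro ⟨y, hy, rfl⟩
        refine ⟨?_, rfl⟩
        intro i hi hiy
        have := hy hiy
        rw [mem_compl] at this
        exact this hi
    rw [e3, card_image_of_injective _ (fun a b hab => (Prod.mk.inj hab).2), card_powerset,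
      card_compl, one_pow, one_mul, card_univ]
  rw [e1, sum_congr rfl (fun x _ => e2 x)]
  have e4 := Finset.sum_pow_mul_eq_add_pow (1 : ℕ) 2 (univ : Finset (Fin M))
  rw [powerset_univ] at e4
  rw [e4, card_univ, Fintype.card_fin]

end Pool.Agent.PDX.H31
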